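import Pool.Agent.P.MP_0db899_lc.Main

open Pool.Agent.P.MP_0db899_lc

namespace Pool.Agent.Results.MP_0db899_lc.NonHelping

/-- Q1, answered positively.  For every relative Blum measure there is a recursive `g` such that
for every recursive set `A` and recursive `s` there is a recursive set `B` with
`Φ-Comp(B) >_ae s` which preserves every lower bound of `A` up to `g`: for all `t`,
`Φ-Comp(A) >_ae g □ t` implies `Φ^B-Comp(A) >_ae t`. -/
theorem result (μ : RelBlum) : ∃ g : ℕ → ℕ → ℕ, Computable₂ g ∧
    ∀ A : ℕ → Bool, Computable A → ∀ s : ℕ → ℕ, Computable s →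
      ∃ B : ℕ → Bool, Computable B ∧ CompGT μ (fun _ => false) B s ∧
        ∀ t : ℕ → ℕ, CompGT μ (fun _ => false) A (fun x => g x (t x)) → CompGT μ B A t :=
  nonhelping μ

end Pool.Agent.Results.MP_0db899_lc.NonHelping
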